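import Mathlib
import Pool.Agent.Helper9.NS
import Pool.Agent.Helper15.KP.HFb

/-!
# JC: traces of harmonic functions along finite embeddings
-/

set_option linter.unusedSectionVars false

namespace Pool.Agent.Helper15.JC

open VC VF Function Pool.Agent.Helper21.TO Pool.Agent.Helper15.GT Pool.Agent.Helper15.KP

universe u

variable {k : Type u} [Field k] [IsAlgClosed k] [CharZero k] {F E : Type u} [Field F] [Algebra k F]
  [Field E] [Algebra k E]

/-- The embedding of `F` in its algebraic closure. -/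
noncomputable def iF (k F : Type u) [Field k] [Field F] [Algebra k F] : F →ₐ[k] AlgebraicClosure F :=
  IsScalarTower.toAlgHom k F (AlgebraicClosure F)

/-- The embeddings of `F` in its algebraic closure which are equal to `iF ∘ ψ` on `E`, where `E` is embedded in `F` by
`φ`. -/
def Emb (φ ψ : E →ₐ[k] F) : Type u :=
  {f : F →ₐ[k] AlgebraicClosure F // f.comp φ = (iF k F).comp ψ}

/-- finiteness of the set of embeddings over `E` -/
private lemma finite_aux {A : Type u} [Field A] [Algebra k A] (φ : E →ₐ[k] F) (e : E →ₐ[k] A)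
    (hφ : φ.toRingHom.Finite) : Finite {f : F →ₐ[k] A // f.comp φ = e} := by
  let _ : Algebra E F := φ.toRingHom.toAlgebra
  let _ : Algebra E A := e.toRingHom.toAlgebra
  have : FiniteDimensional E F := hφ
  let g : {f : F →ₐ[k] A // f.comp φ = e} → (F →ₐ[E] A) := fun f =>
    { f.1.toRingHom with
      commutes' := fun c => DFunLike.congr_fun f.2 c }
  refine Finite.of_injective g fun a b h => Subtype.ext ?_
  ext z
  exact DFunLike.congr_fun h z

lemma finite_emb (φ ψ : E →ₐ[k] F) (hφ : φ.toRingHom.Finite) : Finite (Emb φ ψ) :=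
  finite_aux φ _ hφ

lemma nonempty_emb (φ : E →ₐ[k] F) : Nonempty (Emb φ φ) := ⟨⟨iF k F, rfl⟩⟩

private lemma fixed_aux {A : Type u} [Field A] [Algebra k A] [IsAlgClosed A] (e : E →ₐ[k] A)
    (he : ∀ x : A, ∃ p : Polynomial E, p ≠ 0 ∧ p.eval₂ (e : E →+* A) x = 0) (z : A)
    (hz : ∀ σ : A ≃ₐ[k] A, ((σ : A →ₐ[k] A).comp e = e) → σ z = z) : z ∈ Set.range e := by
  have hE : CharZero E := charZero_of_injective_algebraMap (algebraMap k E).injective
  let _ : Algebra E A := e.toRingHom.toAlgebra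
  have : Algebra.IsAlgebraic E A := ⟨fun x => by
    obtain ⟨p, hp, h⟩ := he x
    exact ⟨p, hp, h⟩⟩
  have : IsAlgClosure E A := ⟨inferInstance, inferInstance⟩
  have : Normal E A := IsAlgClosure.normal E A
  have : IsGalois E A := ⟨⟩
  have h1 := (InfiniteGalois.mem_range_algebraMap_iff_fixed (k := E) (K := A) z).mpr ?_
  · obtain ⟨x, hx⟩ := h1
    exact ⟨x, hx⟩
  · intro σ
    have h4 : ∀ c : k, σ (algebraMap k A c) = algebraMap k A c := by
      intro c
      have h3 := σ.commutes (algebraMap k E c)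
      change σ (e (algebraMap k E c)) = e (algebraMap k E c) at h3
      rw [e.commutes] at h3
      exact h3
    have h2 := hz (AlgEquiv.ofRingEquiv (f := σ.toRingEquiv) h4) (by
        ext x
        exact σ.commutes x)
    exact h2

private lemma aut_aux {A B : Type u} [Field A] [Algebra k A] [IsAlgClosed A] [Field B] [Algebra k B]
    [IsAlgClosed B] (e : E →ₐ[k] A) (e' : E →ₐ[k] B)
    (he : ∀ x : A, ∃ p : Polynomial E, p ≠ 0 ∧ p.eval₂ (e : E →+* A) x = 0)
    (he' : ∀ x : B, ∃ p : Polynomial E, p ≠ 0 ∧ p.eval₂ (e' : E →+* B) x = 0) :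
    ∃ σ : A ≃ₐ[k] B, (σ : A →ₐ[k] B).comp e = e' := by
  let _ : Algebra E A := e.toRingHom.toAlgebra
  let _ : Algebra E B := e'.toRingHom.toAlgebra
  have : Algebra.IsAlgebraic E A := ⟨fun x => by
    obtain ⟨p, hp, h⟩ := he x
    exact ⟨p, hp, h⟩⟩
  have : Algebra.IsAlgebraic E B := ⟨fun x => by
    obtain ⟨p, hp, h⟩ := he' x
    exact ⟨p, hp, h⟩⟩
  have : IsAlgClosure E A := ⟨inferInstance, inferInstance⟩
  have : IsAlgClosure E B := ⟨inferInstance, inferInstance⟩
  let τ : A ≃ₐ[E] B := IsAlgClosure.equiv E A B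
  have h4 : ∀ c : k, τ (algebraMap k A c) = algebraMap k B c := by
    intro c
    have h3 := τ.commutes (algebraMap k E c)
    change τ (e (algebraMap k E c)) = e' (algebraMap k E c) at h3
    rw [e.commutes, e'.commutes] at h3
    exact h3
  refine ⟨AlgEquiv.ofRingEquiv (f := τ.toRingEquiv) h4, ?_⟩
  ext x
  exact τ.commutes x

private lemma alg_aux (φ : E →ₐ[k] F) (hφ : φ.toRingHom.Finite) (x : AlgebraicClosure F) :
    ∃ p : Polynomial E, p ≠ 0 ∧ p.eval₂ (((iF k F).comp φ : E →ₐ[k] AlgebraicClosure F) : E →+* AlgebraicClosure F) x = 0 := by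
  have key : ∀ {A : Type u} [Field A] [Algebra F A] [Algebra.IsAlgebraic F A] (x : A),
      ∃ p : Polynomial E, p ≠ 0 ∧ p.eval₂ ((algebraMap F A).comp (φ : E →+* F)) x = 0 := by
    intro A _ _ _ x
    let _ : Algebra E F := φ.toRingHom.toAlgebra
    have : FiniteDimensional E F := hφ
    let _ : Algebra E A := ((algebraMap F A).comp (φ : E →+* F)).toAlgebra
    have : IsScalarTower E F A := IsScalarTower.of_algebraMap_eq fun x => rfl
    have : Algebra.IsAlgebraic E A := Algebra.IsAlgebraic.trans E F A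
    obtain ⟨p, hp, h⟩ := Algebra.IsAlgebraic.isAlgebraic (R := E) x
    exact ⟨p, hp, h⟩
  exact key x

/-- The elements of the algebraic closure which are fixed by the automorphisms over `E`. -/
lemma fixed_mem (φ : E →ₐ[k] F) (hφ : φ.toRingHom.Finite) (z : AlgebraicClosure F)
    (hz : ∀ σ : AlgebraicClosure F ≃ₐ[k] AlgebraicClosure F,
      ((σ : AlgebraicClosure F →ₐ[k] AlgebraicClosure F).comp ((iF k F).comp φ) = (iF k F).comp φ) → σ z = z) :
    z ∈ Set.range ((iF k F).comp φ) :=
  fixed_aux _ (alg_aux φ hφ) z hz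

/-- An automorphism of the algebraic closure which maps `iF ∘ φ` to `iF ∘ ψ`. -/
lemma exists_aut (φ ψ : E →ₐ[k] F) (hφ : φ.toRingHom.Finite) (hψ : ψ.toRingHom.Finite) :
    ∃ σ : AlgebraicClosure F ≃ₐ[k] AlgebraicClosure F,
      (σ : AlgebraicClosure F →ₐ[k] AlgebraicClosure F).comp ((iF k F).comp φ) = (iF k F).comp ψ :=
  aut_aux _ _ (alg_aux φ hφ) (alg_aux ψ hψ)

/-- Any algebraic closure of `F` is isomorphic to the standard one. -/
theorem exists_iso {A : Type u} [Field A] [Algebra k A] [IsAlgClosed A] (iA : F →ₐ[k] A)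
    (hA : ∀ z : A, ∃ p : Polynomial F, p ≠ 0 ∧ p.eval₂ (iA : F →+* A) z = 0) :
    ∃ e : AlgebraicClosure F ≃ₐ[k] A, (e : AlgebraicClosure F →ₐ[k] A).comp (iF k F) = iA :=
  aut_aux (iF k F) iA (fun x => by
    obtain ⟨p, hp, h⟩ := Algebra.IsAlgebraic.isAlgebraic (R := F) x
    exact ⟨p, hp, h⟩) hA

/-- The trace of a function on the places of `F` along a finite embedding `φ : E → F`. -/
noncomputable def tr (φ : E →ₐ[k] F) (u : RPl k F → k) (v : RPl k E) : k :=
  ∑ᶠ f : Emb φ φ, u ((exists_lift ((iF k F).comp φ) v).choose.comap f.1)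

theorem tr_spec0 (φ : E →ₐ[k] F) (hφ : φ.toRingHom.Finite) {u : RPl k F → k} (hu : HF k F u) :
    HF k E (tr φ u) ∧ ∀ w : RPl k (AlgebraicClosure F), tr φ u (w.comap ((iF k F).comp φ)) =
      ∑ᶠ f : Emb φ φ, u (w.comap f.1) := by
  classical
  have := finite_emb φ φ hφ
  let _ : Fintype (Emb φ φ) := Fintype.ofFinite _
  have := nonempty_emb (k := k) φ
  obtain ⟨u', hu', h⟩ := HF.fam (fun f : Emb φ φ => f.1) ((iF k F).comp φ)
    {σ | (σ : AlgebraicClosure F →ₐ[k] AlgebraicClosure F).comp ((iF k F).comp φ) = (iF k F).comp φ}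
    (fun z hz => fixed_mem φ hφ z fun σ hσ => hz σ hσ) (fun σ hσ => by
      let g : Emb φ φ → Emb φ φ := fun f => ⟨(σ : AlgebraicClosure F →ₐ[k] AlgebraicClosure F).comp f.1, by
        rw [AlgHom.comp_assoc, f.2]
        exact hσ⟩
      have hg : Injective g := by
        intro a b hab
        apply Subtype.ext
        ext z
        have h1 := DFunLike.congr_fun (congrArg Subtype.val hab) z
        exact σ.injective h1
      refine ⟨Equiv.ofBijective g (Finite.injective_iff_bijective.mp hg), fun j x => rfl⟩) hu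
  have e : tr φ u = u' := by
    funext v
    have h1 := (exists_lift ((iF k F).comp φ) v).choose_spec
    have h2 := h (exists_lift ((iF k F).comp φ) v).choose
    rw [h1] at h2
    rw [h2, tr, finsum_eq_sum_of_fintype]
  rw [e]
  exact ⟨hu', fun w => by rw [h w, finsum_eq_sum_of_fintype]⟩

/-- The value of the trace along `φ` at the place restricted by `ψ`. -/
theorem tr_spec (φ ψ : E →ₐ[k] F) (hφ : φ.toRingHom.Finite) (hψ : ψ.toRingHom.Finite) {u : RPl k F → k}
    (hu : HF k F u) (w : RPl k (AlgebraicClosure F)) :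
    tr φ u ((w.comap (iF k F)).comap ψ) = ∑ᶠ f : Emb φ ψ, u (w.comap f.1) := by
  classical
  obtain ⟨σ, hσ⟩ := exists_aut φ ψ hφ hψ
  have h1 := (tr_spec0 φ hφ hu).2 (w.comap (σ : AlgebraicClosure F →ₐ[k] AlgebraicClosure F))
  rw [RPl.comap_comap, hσ] at h1
  rw [RPl.comap_comap, h1]
  let g : Emb φ φ ≃ Emb φ ψ :=
    { toFun := fun f => ⟨(σ : AlgebraicClosure F →ₐ[k] AlgebraicClosure F).comp f.1, by
        rw [AlgHom.comp_assoc, f.2]
        exact hσ⟩
      invFun := fun f => ⟨(σ.symm : AlgebraicClosure F →ₐ[k] AlgebraicClosure F).comp f.1, by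
        rw [AlgHom.comp_assoc, f.2, ← hσ]
        ext z
        exact σ.symm_apply_apply _⟩
      left_inv := fun f => Subtype.ext (by
        ext z
        exact σ.symm_apply_apply _)
      right_inv := fun f => Subtype.ext (by
        ext z
        exact σ.apply_symm_apply _) }
  refine finsum_eq_of_bijective g g.bijective fun f => ?_
  rw [RPl.comap_comap]
  rfl

end Pool.Agent.Helper15.JC
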