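import Mathlib
import Pool.Agent.Helper9.NS
import Pool.Agent.Helper15.JC.Tr
import Pool.Agent.Helper15.GT.RDec

/-!
# JC: Voisin's property for a field which is decomposed by traces

`φ i : E i → F` are finite embeddings, `ψ i j : E i → F` further ones. If for each harmonic function `u` on the places of `F`
a multiple of `u` is the sum of the functions `c i j • (tr (φ i) u) ∘ (ψ i j)` and of a function from the curve `K`, then
Voisin's property of the `E i` gives the property for `F`.
-/

set_option linter.unusedSectionVars false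

namespace Pool.Agent.Helper15.JC

open VC VF Function Pool.Agent.Helper21.TO Pool.Agent.Helper21.TB Pool.Agent.Helper15.GT Pool.Agent.Helper15.KP
open Pool.Agent.Helper51.VN (Harm)

universe u

variable {k : Type u} [Field k] [IsAlgClosed k] [CharZero k] {F : Type u} [Field F] [Algebra k F]

theorem voisinOn_dec' {ι : Type*} [Fintype ι] {S : Variety k} (hS : HasConst S) {X : ι → Variety k}
    {Z : ∀ i, (X i).Pt → S.Cycles} (hZ : ∀ i, Cor (X i) S (Z i)) (H : ∀ i, Set (X i).Cycles)
    (p : ι → ℕ) (hV : ∀ i n, p i < n → VoisinOn (X i) (H i) n) {n : ℕ} (hn : ∑ i, p i < n)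
    (HS : Set S.Cycles)
    (hHS : ∀ a ∈ HS, ∃ D : ℕ, 0 < D ∧ ∃ b : ∀ i, (X i).Cycles, (∀ i, b i ∈ H i) ∧
      Nul S (D • a - ∑ i, Finsupp.linearCombination ℤ (Z i) (b i))) : VoisinOn S HS n := by
  classical
  let e := Fintype.equivFin ι
  refine voisinOn_dec (m := Fintype.card ι) hS (X := fun a => X (e.symm a)) (Z := fun a => Z (e.symm a))
    (fun a => hZ _) (fun a => H (e.symm a)) (fun a => p (e.symm a)) (fun a => hV _) (n := n) ?_ HS ?_
  · rwa [Equiv.sum_comp e.symm p]
  · intro a ha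
    obtain ⟨D, hD, b, hb, h⟩ := hHS a ha
    refine ⟨D, hD, fun a => b (e.symm a), fun a => hb _, ?_⟩
    rwa [Equiv.sum_comp e.symm (fun i => Finsupp.linearCombination ℤ (Z i) (b i))]

/-- The model of `E` and the correspondence to the closure of the point `ξ` of `F`, given by the fibres. -/
theorem exists_model {E : Type u} [Field E] [Algebra k E] (φ : E →ₐ[k] F) (hφ : φ.toRingHom.Finite) {M : ℕ}
    (ξ : Fin M → F) (hξ : ξ ≠ 0) : ∃ (M' : ℕ) (η : Fin M' → E) (hη : η ≠ 0)
      (Z : (proj k (van k η)).Pt → (proj k (van k ξ)).Cycles), Cor (proj k (van k η)) (proj k (van k ξ)) Z ∧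
      ∀ (θ : (proj k (van k ξ)).Pt → k), Kills (proj k (van k ξ)) θ → ∀ v : RPl k E,
        Finsupp.linearCombination ℤ θ (Z (evP η hη v)) = tr φ (fun w => θ (evP ξ hξ w)) v := by
  classical
  have := finite_emb φ φ hφ
  let _ : Fintype (Emb φ φ) := Fintype.ofFinite _
  have := nonempty_emb (k := k) φ
  obtain ⟨η, hη, hcor, hev⟩ := exists_fam (fun f : Emb φ φ => f.1) ((iF k F).comp φ) ξ hξ
    (fun l => nm_mem_of_perm (fun f : Emb φ φ => f.1) ((iF k F).comp φ)
      {σ | (σ : AlgebraicClosure F →ₐ[k] AlgebraicClosure F).comp ((iF k F).comp φ) = (iF k F).comp φ}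
      (fun z hz => fixed_mem φ hφ z fun σ hσ => hz σ hσ) (fun σ hσ => by
        let g : Emb φ φ → Emb φ φ := fun f => ⟨(σ : AlgebraicClosure F →ₐ[k] AlgebraicClosure F).comp f.1, by
          rw [AlgHom.comp_assoc, f.2]
          exact hσ⟩
        have hg : Injective g := by
          intro a b hab
          apply Subtype.ext
          ext z
          have h1 := DFunLike.congr_fun (congrArg Subtype.val hab) z
          exact σ.injective h1
        exact ⟨Equiv.ofBijective g (Finite.injective_iff_bijective.mp hg), fun j x => rfl⟩) ξ l)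
  refine ⟨_, η, hη, _, hcor, fun θ hθ v => ?_⟩
  obtain ⟨w, rfl⟩ := exists_lift ((iF k F).comp φ) v
  rw [hev w, (tr_spec0 φ hφ (u := fun w => θ (evP ξ hξ w)) ⟨M, ξ, hξ, θ, hθ, fun w => rfl⟩).2 w,
    finsum_eq_sum_of_fintype, map_sum]
  refine Finset.sum_congr rfl fun j _ => ?_
  rw [Finsupp.linearCombination_single, one_smul]

theorem vpj_of_tr {ι : Type*} [Fintype ι] {κ : ι → Type*} [∀ i, Fintype (κ i)] (E : ι → Type u)
    [∀ i, Field (E i)] [∀ i, Algebra k (E i)] (p : ι → ℕ) (hV : ∀ i, VPJ k (E i) (p i))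
    (φ : ∀ i, E i →ₐ[k] F) (hφ : ∀ i, (φ i).toRingHom.Finite) (ψ : ∀ i, κ i → E i →ₐ[k] F)
    (c : ∀ i, κ i → ℤ) {N : ℕ} (hN : 0 < N) {K : Type u} [Field K] [Algebra k K] (hK : IsFunctionField k K)
    (j : K →ₐ[k] F)
    (H : ∀ u : RPl k F → k, HF k F u → ∃ ν : Place k K → k, Harm hK ν ∧ ∀ w : RPl k F,
      (N : k) * u w = ∑ i, ∑ a, (c i a : k) * tr (φ i) u (w.comap (ψ i a)) + ν (w.pl hK j)) :
    VPJ k F (∑ i, p i) := by
  classical
  intro M ξ hξ n hn
  choose M' η hη Z hZ hev using fun i => exists_model (φ i) (hφ i) ξ hξ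
  refine voisinOn_dec' (S := proj k (van k ξ)) (fun K _ _ hK p => pconst K hK p)
    (X := fun i => proj k (van k (η i))) (Z := Z) hZ
    (fun i => {b | ∃ a : RPl k (E i) →₀ ℤ, AJ k (E i) a ∧ b = a.mapDomain (evP (η i) (hη i))}) p
    (fun i n' hn' => hV i _ (η i) (hη i) n' hn') hn _ ?_
  rintro b ⟨a, ha, rfl⟩
  refine ⟨N, hN, fun i => (∑ t, c i t • a.mapDomain (fun w => w.comap (ψ i t))).mapDomain
    (evP (η i) (hη i)), fun i => ⟨_, ha.comb _ _ _, rfl⟩, fun θ hθ => ?_⟩
  obtain ⟨ν, hν, h⟩ := H (fun w => θ (evP ξ hξ w)) ⟨M, ξ, hξ, θ, hθ, fun w => rfl⟩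
  have h1 : ∀ i, Finsupp.linearCombination ℤ θ (Finsupp.linearCombination ℤ (Z i)
      ((∑ t, c i t • a.mapDomain (fun w => w.comap (ψ i t))).mapDomain (evP (η i) (hη i)))) =
      ∑ t, (c i t : k) * Finsupp.linearCombination ℤ
        (fun w => tr (φ i) (fun w => θ (evP ξ hξ w)) (w.comap (ψ i t))) a := by
    intro i
    have h2 : ∀ x : RPl k (E i) →₀ ℤ, Finsupp.linearCombination ℤ θ (Finsupp.linearCombination ℤ (Z i)
        (x.mapDomain (evP (η i) (hη i)))) = Finsupp.linearCombination ℤ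
          (tr (φ i) (fun w => θ (evP ξ hξ w))) x := by
      intro x
      rw [Finsupp.linearCombination_mapDomain, Finsupp.linearCombination_apply ℤ x, Finsupp.sum, map_sum,
        Finsupp.linearCombination_apply, Finsupp.sum]
      refine Finset.sum_congr rfl fun v _ => ?_
      rw [map_smul]
      congr 1
      exact hev i θ hθ v
    rw [h2, map_sum]
    refine Finset.sum_congr rfl fun t _ => ?_
    rw [map_smul, zsmul_eq_mul, Finsupp.linearCombination_mapDomain]
    rfl
  have h3 : Finsupp.linearCombination ℤ (fun w => ν (w.pl hK j)) a = 0 := by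
    have h4 := harm_curve hν _ (ha.2 K hK j)
    rw [Finsupp.linearCombination_mapDomain] at h4
    exact h4
  rw [map_sub, map_nsmul, nsmul_eq_mul, map_sum, Finset.sum_congr rfl fun i _ => h1 i]
  have h5 : (N : k) * Finsupp.linearCombination ℤ θ (a.mapDomain (evP ξ hξ)) =
      ∑ i, ∑ t, (c i t : k) * Finsupp.linearCombination ℤ
        (fun w => tr (φ i) (fun w => θ (evP ξ hξ w)) (w.comap (ψ i t))) a +
      Finsupp.linearCombination ℤ (fun w => ν (w.pl hK j)) a := by
    rw [Finsupp.linearCombination_mapDomain]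
    simp only [Finsupp.linearCombination_apply, Finsupp.sum, Finset.mul_sum, zsmul_eq_mul]
    rw [Finset.sum_congr rfl fun w _ => show (N : k) * ((a w : k) * (θ ∘ evP ξ hξ) w) =
      ∑ i, ∑ t, (c i t : k) * ((a w : k) * tr (φ i) (fun w => θ (evP ξ hξ w)) (w.comap (ψ i t))) +
        (a w : k) * ν (w.pl hK j) by
      have h6 := h w
      calc (N : k) * ((a w : k) * (θ ∘ evP ξ hξ) w) = (a w : k) * ((N : k) * θ (evP ξ hξ w)) := by
            rw [comp_apply]; ring
        _ = _ := by
            rw [h6, mul_add, Finset.mul_sum]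
            congr 1
            refine Finset.sum_congr rfl fun i _ => ?_
            rw [Finset.mul_sum]
            refine Finset.sum_congr rfl fun t _ => ?_
            ring]
    rw [Finset.sum_add_distrib]
    congr 1
    rw [Finset.sum_comm]
    refine Finset.sum_congr rfl fun i _ => ?_
    rw [Finset.sum_comm]
  rw [h5, h3, add_zero, sub_self]

end Pool.Agent.Helper15.JC
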