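import Mathlib
import Pool.Agent.Helper79.JC.Defs
import Pool.Agent.Helper15.JC.Dec

/-!
# JC: the values of the correspondences are traces
-/

set_option linter.unusedSectionVars false

namespace Pool.Agent.Helper15.JC

open VC VF Function Polynomial Pool.Agent.Helper21.TO Pool.Agent.Helper21.TB Pool.Agent.Helper15.GT
  Pool.Agent.Helper15.KP
open Pool.Agent.Helper51.VN (Harm)
open Pool.Agent.Helper79.JC

universe u

variable {k K F : Type u} [Field k] [IsAlgClosed k] [CharZero k] [Field K] [Algebra k K] [Field F] [Algebra k F]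
  {κ : K →ₐ[k] F} {Ω M : Type u} [Field Ω] [Algebra k Ω] [Algebra K Ω] [IsScalarTower k K Ω] [IsAlgClosed Ω]
  [CharZero Ω] [Algebra.IsAlgebraic K Ω] [Field M] [Algebra k M] [Algebra Ω M] [IsScalarTower k Ω M]

/-- The algebraic closure of `M` is algebraic over `F`. -/
theorem alg_iA (D : BC κ Ω M) (z : AlgebraicClosure M) :
    ∃ p : F[X], p ≠ 0 ∧ p.eval₂ (D.iA : F →+* AlgebraicClosure M) z = 0 := by
  classical
  let _ : Algebra F M := (D.j : F →+* M).toAlgebra
  have h1 : ∀ m : M, IsAlgebraic F m := by
    intro m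
    have hm : m ∈ Algebra.adjoin Ω (Set.range D.j) := by
      rw [D.gen]
      exact Algebra.mem_top
    induction hm using Algebra.adjoin_induction with
    | mem x hx =>
      obtain ⟨y, rfl⟩ := hx
      exact isAlgebraic_algebraMap (R := F) (A := M) y
    | algebraMap a =>
      obtain ⟨p, hp, h⟩ := Algebra.IsAlgebraic.isAlgebraic (R := K) a
      refine ⟨p.map (κ : K →+* F), (Polynomial.map_ne_zero_iff (κ : K →+* F).injective).mpr hp, ?_⟩
      have e : (algebraMap F M).comp (κ : K →+* F) = (algebraMap Ω M).comp (algebraMap K Ω) := by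
        ext x
        exact D.hj x
      rw [Polynomial.aeval_def, Polynomial.eval₂_map, e, ← Polynomial.hom_eval₂, ← Polynomial.aeval_def, h, map_zero]
    | add x y _ _ hx hy => exact hx.add hy
    | mul x y _ _ hx hy => exact hx.mul hy
  have : Algebra.IsAlgebraic F M := ⟨h1⟩
  have : Algebra.IsAlgebraic F (AlgebraicClosure M) := Algebra.IsAlgebraic.trans F M (AlgebraicClosure M)
  obtain ⟨p, hp, h⟩ := Algebra.IsAlgebraic.isAlgebraic (R := F) z
  refine ⟨p, hp, ?_⟩
  have e : (D.iA : F →+* AlgebraicClosure M) = algebraMap F (AlgebraicClosure M) := by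
    rw [IsScalarTower.algebraMap_eq F M (AlgebraicClosure M)]
    rfl
  rw [e]
  exact h

/-- The value of the correspondence `f^* g_*` at a place is the value of the trace along `f`. -/
theorem cE_eq (D : BC κ Ω M) {E : Type u} [Field E] [Algebra k E] (f g : E →ₐ[k] F)
    (hf : (f : E →+* F).Finite) (hg : (g : E →+* F).Finite) {u : RPl k F → k} (hu : HF k F u)
    (w : RPl k (AlgebraicClosure M)) : cE D f g u w = tr f u ((w.comap D.iA).comap g) := by
  classical
  obtain ⟨e, he⟩ := exists_iso D.iA (alg_iA D)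
  have h1 := tr_spec f g hf hg hu (w.comap (e : AlgebraicClosure F →ₐ[k] AlgebraicClosure M))
  rw [RPl.comap_comap (w := w), he] at h1
  rw [h1, cE]
  let φ : Emb f g ≃ {σ : F →ₐ[k] AlgebraicClosure M // ∀ z : E, σ (f z) = D.iA (g z)} :=
    { toFun := fun σ => ⟨(e : AlgebraicClosure F →ₐ[k] AlgebraicClosure M).comp σ.1, fun z => by
        have h2 := DFunLike.congr_fun σ.2 z
        have h3 := DFunLike.congr_fun he (g z)
        exact (congrArg e h2).trans h3⟩
      invFun := fun σ => ⟨(e.symm : AlgebraicClosure M →ₐ[k] AlgebraicClosure F).comp σ.1, by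
        ext z
        have h2 := σ.2 z
        have h3 := DFunLike.congr_fun he (g z)
        apply e.injective
        exact (e.apply_symm_apply _).trans (h2.trans h3.symm)⟩
      left_inv := fun σ => Subtype.ext (by
        ext z
        exact e.symm_apply_apply _)
      right_inv := fun σ => Subtype.ext (by
        ext z
        exact e.apply_symm_apply _) }
  refine (finsum_eq_of_bijective φ φ.bijective fun σ => ?_).symm
  rw [RPl.comap_comap]
  rfl

/-- The function `w ↦ ∑ u (w|σ)` comes from a harmonic function on `F`. -/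
theorem cE_hf (D : BC κ Ω M) {E : Type u} [Field E] [Algebra k E] (f g : E →ₐ[k] F)
    (hf : (f : E →+* F).Finite) (hg : (g : E →+* F).Finite) {u : RPl k F → k} (hu : HF k F u) :
    ∃ v : RPl k F → k, HF k F v ∧ ∀ w : RPl k (AlgebraicClosure M), cE D f g u w = v (w.comap D.iA) :=
  ⟨fun w => tr f u (w.comap g), (tr_spec0 f hf hu).1.comap g, fun w => cE_eq D f g hf hg hu w⟩

/-- The sum of the values over the embeddings which are equal to `g` on `F` itself. -/
theorem cE_id (D : BC κ Ω M) (g : F →ₐ[k] F) (u : RPl k F → k) (w : RPl k (AlgebraicClosure M)) :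
    cE D (AlgHom.id k F) g u w = u ((w.comap D.iA).comap g) := by
  classical
  rw [cE]
  letI : Unique {σ : F →ₐ[k] AlgebraicClosure M // ∀ z : F, σ (AlgHom.id k F z) = D.iA (g z)} :=
    { default := ⟨D.iA.comp g, fun z => rfl⟩
      uniq := fun σ => Subtype.ext (by
        ext z
        exact σ.2 z) }
  rw [finsum_eq_single _ (default : {σ : F →ₐ[k] AlgebraicClosure M // ∀ z : F, σ (AlgHom.id k F z) = D.iA (g z)})
    fun σ hσ => absurd (Subsingleton.elim _ _) hσ, RPl.comap_comap]
  rfl

end Pool.Agent.Helper15.JC
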