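import Mathlib
import Pool.Agent.Helper15.JC.CE

/-!
# JC: Voisin's property for a curve over `K` the Jacobian of which is decomposed by correspondences
-/

set_option linter.unusedSectionVars false

namespace Pool.Agent.Helper15.JC

open VC VF Function Polynomial Pool.Agent.Helper21.TO Pool.Agent.Helper21.TB Pool.Agent.Helper15.GT
  Pool.Agent.Helper15.KP
open Pool.Agent.Helper51.VN (Harm)
open Pool.Agent.Helper79.JC

universe u

variable {k K F : Type u} [Field k] [IsAlgClosed k] [CharZero k] [Field K] [Algebra k K] [Field F] [Algebra k F]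
  {κ : K →ₐ[k] F} {Ω M : Type u} [Field Ω] [Algebra k Ω] [Algebra K Ω] [IsScalarTower k K Ω] [IsAlgClosed Ω]
  [CharZero Ω] [Algebra.IsAlgebraic K Ω] [Field M] [Algebra k M] [Algebra Ω M] [IsScalarTower k Ω M]

/-- The curve `X` itself as one more correspondence. -/
lemma corr_id (D : BC κ Ω M) (x : RPl Ω (AlgebraicClosure M)) :
    corr D (AlgHom.id k F) (AlgHom.id k F) x =
      Finsupp.single (x.pl D.ff (IsScalarTower.toAlgHom Ω M (AlgebraicClosure M))) 1 := by
  classical
  rw [corr]
  have hu : ∀ σ : M →ₐ[Ω] AlgebraicClosure M, (∀ z : F, σ (D.j z) = D.iA z) →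
      σ = IsScalarTower.toAlgHom Ω M (AlgebraicClosure M) := by
    intro σ hσ
    refine AlgHom.ext fun z => ?_
    have hz : z ∈ Algebra.adjoin Ω (Set.range D.j) := by
      rw [D.gen]
      exact Algebra.mem_top
    induction hz using Algebra.adjoin_induction with
    | mem y hy =>
      obtain ⟨y, rfl⟩ := hy
      exact hσ y
    | algebraMap a => rw [σ.commutes, AlgHom.commutes]
    | add a b _ _ ha hb => rw [map_add, map_add, ha, hb]
    | mul a b _ _ ha hb => rw [map_mul, map_mul, ha, hb]
  let σ₀ : {σ : M →ₐ[Ω] AlgebraicClosure M // ∀ z : F, σ (D.j (AlgHom.id k F z)) = D.iA (AlgHom.id k F z)} :=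
    ⟨IsScalarTower.toAlgHom Ω M (AlgebraicClosure M), fun z => rfl⟩
  rw [finsum_eq_single _ σ₀ fun σ hσ => absurd (Subtype.ext (hu σ.1 σ.2)) hσ]

/-- The rule in terms of the divisors `corr`, from the statement `StmtHarm` on harmonic functions. -/
theorem vpj_corr (hH : StmtHarm.{u}) (hK : IsFunctionField k K) (D : BC κ Ω M) {m : ℕ} (E : Fin m → Type u)
    [∀ i, Field (E i)] [∀ i, Algebra k (E i)] (κE : ∀ i, K →ₐ[k] E i) (f : ∀ i, E i →ₐ[k] F)
    (hf : ∀ i, (f i).comp (κE i) = κ) (hf' : ∀ i, (f i : E i →+* F).Finite) (r : Fin m → ℕ)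
    (g : ∀ i, Fin (r i) → E i →ₐ[k] F) (hg : ∀ i s, (g i s).comp (κE i) = κ)
    (hg' : ∀ i s, (g i s : E i →+* F).Finite) (c : ∀ i, Fin (r i) → ℤ) {N : ℕ} (hN : 0 < N)
    (H : ∀ x y : RPl Ω (AlgebraicClosure M),
      (N : ℤ) • (Finsupp.single (x.pl D.ff (IsScalarTower.toAlgHom Ω M (AlgebraicClosure M))) (1 : ℤ) -
        Finsupp.single (y.pl D.ff (IsScalarTower.toAlgHom Ω M (AlgebraicClosure M))) 1) -
      ∑ i, ∑ s, c i s • (corr D (f i) (g i s) x - corr D (f i) (g i s) y) ∈ (curve D.ff).Rat)
    (p : Fin m → ℕ) (hV : ∀ i, VPJ k (E i) (p i)) : VPJ k F (∑ i, p i) := by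
  classical
  refine vpj_of_tr E p hV f hf' g c hN hK κ fun u hu => ?_
  let I := Option (Σ i, Fin (r i))
  let c' : I → ℤ := fun t => match t with
    | none => N
    | some s => - c s.1 s.2
  let E' : I → Type u := fun t => match t with
    | none => F
    | some s => E s.1
  let _ : ∀ t, Field (E' t) := fun t => match t with
    | none => (inferInstance : Field F)
    | some s => (inferInstance : Field (E s.1))
  let _ : ∀ t, Algebra k (E' t) := fun t => match t with
    | none => (inferInstance : Algebra k F)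
    | some s => (inferInstance : Algebra k (E s.1))
  let κ' : ∀ t, K →ₐ[k] E' t := fun t => match t with
    | none => κ
    | some s => κE s.1
  let f' : ∀ t, E' t →ₐ[k] F := fun t => match t with
    | none => AlgHom.id k F
    | some s => f s.1
  let g' : ∀ t, E' t →ₐ[k] F := fun t => match t with
    | none => AlgHom.id k F
    | some s => g s.1 s.2
  obtain ⟨ν, hν, h⟩ := hH k K F κ Ω M hK D I c' E' κ' f' g'
    (fun t => match t with
      | none => rfl
      | some s => hf s.1)
    (fun t => match t with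
      | none => rfl
      | some s => hg s.1 s.2)
    (fun t => match t with
      | none => RingHom.Finite.id F
      | some s => hf' s.1)
    (fun t => match t with
      | none => RingHom.Finite.id F
      | some s => hg' s.1 s.2)
    (fun x y => by
      have h1 := H x y
      rw [Fintype.sum_option, Fintype.sum_sigma]
      change (N : ℤ) • (corr D (AlgHom.id k F) (AlgHom.id k F) x - corr D (AlgHom.id k F) (AlgHom.id k F) y) +
        ∑ i, ∑ s, (- c i s) • (corr D (f i) (g i s) x - corr D (f i) (g i s) y) ∈ (curve D.ff).Rat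
      rw [corr_id, corr_id]
      have e : ∑ i, ∑ s, (- c i s) • (corr D (f i) (g i s) x - corr D (f i) (g i s) y) =
          - ∑ i, ∑ s, c i s • (corr D (f i) (g i s) x - corr D (f i) (g i s) y) := by
        rw [← Finset.sum_neg_distrib]
        refine Finset.sum_congr rfl fun i _ => ?_
        rw [← Finset.sum_neg_distrib]
        refine Finset.sum_congr rfl fun s _ => ?_
        rw [neg_smul]
      rw [e, ← sub_eq_add_neg]
      exact h1) u hu
  refine ⟨ν, hν, fun w₀ => ?_⟩
  obtain ⟨w, rfl⟩ := exists_lift D.iA w₀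
  have h2 := h w
  rw [Fintype.sum_option, Fintype.sum_sigma] at h2
  change ((N : ℤ) : k) * cE D (AlgHom.id k F) (AlgHom.id k F) u w +
    ∑ i, ∑ s, ((- c i s : ℤ) : k) * cE D (f i) (g i s) u w = ν ((w.comap D.iA).pl hK κ) at h2
  rw [cE_id] at h2
  have e0 : (w.comap D.iA).comap (AlgHom.id k F) = w.comap D.iA := by
    rw [RPl.comap_comap]
    rfl
  have e1 : ∑ i, ∑ s, ((- c i s : ℤ) : k) * cE D (f i) (g i s) u w =
      - ∑ i, ∑ s, (c i s : k) * tr (f i) u ((w.comap D.iA).comap (g i s)) := by
    rw [← Finset.sum_neg_distrib]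
    refine Finset.sum_congr rfl fun i _ => ?_
    rw [← Finset.sum_neg_distrib]
    refine Finset.sum_congr rfl fun s _ => ?_
    rw [cE_eq D (f i) (g i s) (hf' i) (hg' i s) hu w]
    push_cast
    ring
  rw [e0, e1, Int.cast_natCast] at h2
  rw [← h2]
  ring

end Pool.Agent.Helper15.JC
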