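import Mathlib
import Pool.Agent.Helper15.JC.Vpj
import Pool.Agent.Helper98.JC.Corr

/-!
# JC: the rule with pull-back and push-forward of divisors
-/

set_option linter.unusedSectionVars false

namespace Pool.Agent.Helper15.JC

open VC VF Function Polynomial Pool.Agent.Helper21.TO Pool.Agent.Helper21.TB Pool.Agent.Helper15.GT
  Pool.Agent.Helper15.KP
open Pool.Agent.Helper51.VN (Harm)
open Pool.Agent.Helper79.JC
open Pool.Agent.Helper98.JC (IsPull corr_isPull)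

universe u

variable {k K F : Type u} [Field k] [IsAlgClosed k] [CharZero k] [Field K] [Algebra k K] [Field F] [Algebra k F]
  {κ : K →ₐ[k] F} {Ω M : Type u} [Field Ω] [Algebra k Ω] [Algebra K Ω] [IsScalarTower k K Ω] [IsAlgClosed Ω]
  [CharZero Ω] [Algebra.IsAlgebraic K Ω] [Field M] [Algebra k M] [Algebra Ω M] [IsScalarTower k Ω M]

/-- The rule for a curve over `K` the Jacobian of which is decomposed by correspondences. -/
theorem vpj_jac (hH : StmtHarm.{u}) (hK : IsFunctionField k K) (D : BC κ Ω M) {m : ℕ} (E ME : Fin m → Type u)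
    [∀ i, Field (E i)] [∀ i, Algebra k (E i)] [∀ i, Field (ME i)] [∀ i, Algebra k (ME i)] [∀ i, Algebra Ω (ME i)]
    [∀ i, IsScalarTower k Ω (ME i)] (κE : ∀ i, K →ₐ[k] E i) (DE : ∀ i, BC (κE i) Ω (ME i)) (r : Fin m → ℕ)
    (f : ∀ i, E i →ₐ[k] F) (hf : ∀ i, (f i).comp (κE i) = κ) (hf' : ∀ i, (f i : E i →+* F).Finite)
    (g : ∀ i, Fin (r i) → E i →ₐ[k] F) (hg : ∀ i s, (g i s).comp (κE i) = κ)
    (hg' : ∀ i s, (g i s : E i →+* F).Finite)
    (Φ : ∀ i, ME i →ₐ[Ω] M) (hΦ : ∀ i a, Φ i ((DE i).j a) = D.j (f i a))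
    (Ψ : ∀ i, Fin (r i) → ME i →ₐ[Ω] M) (hΨ : ∀ i s a, Ψ i s ((DE i).j a) = D.j (g i s a))
    (c : ∀ i, Fin (r i) → ℤ) {N : ℕ} (hN : 0 < N)
    (H : ∀ A : Place Ω M →₀ ℤ, (A.sum fun _ n => n) = 0 → ∀ B : ∀ i, Fin (r i) → Place Ω M →₀ ℤ,
      (∀ i s, IsPull D.ff (DE i).ff (Φ i) (A.mapDomain (Place.comap (DE i).ff D.ff (Ψ i s))) (B i s)) →
      (N : ℤ) • A - ∑ i, ∑ s, c i s • B i s ∈ (curve D.ff).Rat)
    (p : Fin m → ℕ) (hV : ∀ i, VPJ k (E i) (p i)) : VPJ k F (∑ i, p i) := by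
  classical
  refine vpj_corr hH hK D E κE f hf hf' r g hg hg' c hN (fun x y => ?_) p hV
  refine H _ ?_ (fun i s => corr D (f i) (g i s) x - corr D (f i) (g i s) y) fun i s =>
    corr_isPull D (DE i) (f i) (g i s) (Φ i) (Ψ i s) (hΦ i) (hΨ i s) x y
  rw [Finsupp.sum_sub_index (fun _ _ _ => rfl), Finsupp.sum_single_index rfl, Finsupp.sum_single_index rfl, sub_self]

end Pool.Agent.Helper15.JC
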