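import Mathlib
import Pool.Agent.Helper9.NS
import Pool.Agent.Helper15.GT.RBase
import Pool.Agent.Helper15.GT.RDec
import Pool.Agent.Helper15.GT.RFin
import Pool.Agent.Helper15.GT.Ruled2
import Pool.Agent.Helper21.TZ.Main
import Pool.Agent.Helper15.JC.Jac
import Pool.Agent.Helper79.JC.Final
import Pool.Agent.Helper35.JC.Cen

/-!
# JC: the class of function fields, and the theorem
-/

set_option linter.unusedSectionVars false

namespace Pool.Agent.Helper15.JC

open VC VF Function Pool.Agent.Helper21.TO Pool.Agent.Helper15.GT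
open Pool.Agent.Helper21.TB (Fibration)
open Pool.Agent.Helper79.JC (BC StmtHarm)
open Pool.Agent.Helper98.JC (IsPull)

universe u

/-- The smallest class of pairs of a field `F` over `k` and a natural number `p` with the following
properties.
* (`fib`) Let `F` be the function field of a surface with a fibration over the curve with function field `K`, of
  genus `g`, whose generic fibre is a curve of genus one, given by the data `T`: `F` contains `K` and is the
  fixed field of the Galois group `T.G` in `T.Ω`. Let `E` be the minimal divisor on the base with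
  `4 E + div a ≥ 0` and `6 E + div b ≥ 0` for the coefficients of the equation `y ^ 2 = x ^ 3 + a x + b` of the Jacobian. Then
  `(F, p)` is in the class where `p = deg E + g - 1` if `E` is not a principal divisor and `p = g` if `E` is
  a principal divisor.
* (`ruled`) If `F = K (x)` where `K` is the function field of a curve, then `(F, 0)` is in the class.
* (`dec`) If the finite group `G` acts on `F`, and `Γ_i` are subgroups such that the sums of their elements generate the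
  rational group ring of `G` as a left ideal, and if the pairs of the fixed field of `Γ_i` and `p_i` are in
  the class, then `(F, ∑ p_i)` is in the class.
* (`jac`) Let `K` be the function field of a curve and `Ω` an algebraic closure of `K`. Let `F`, `E_i` be the function fields
  of curves `X`, `Y_i` over `K`, and let `M`, `ME_i` be the function fields of `X_Ω`, `(Y_i)_Ω`. Let the embeddings `f_i`, `g_is` of
  `E_i` in `F` give finite morphisms `X → Y_i` over `K`, and let `Φ_i`, `Ψ_is` be their extensions to `ME_i → M`. If `N > 0`, `c_is` are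
  integers, and the divisor `N A - ∑ c_is f_i^* g_is_* A` is principal for all divisors `A` of degree zero on `X_Ω`, and if
  the pairs `(E_i, p_i)` are in the class, then `(F, ∑ p_i)` is in the class. -/
inductive Cls (k : Type u) [Field k] [IsAlgClosed k] [CharZero k] :
    (F : Type u) → [Field F] → [Algebra k F] → ℕ → Prop
  | fib (F K L Ω : Type u) [Field F] [Algebra k F] [Field K] [Algebra k K] [Field L] [Algebra k L]
      [Algebra K L] [IsScalarTower k K L] [Field Ω] [Algebra k Ω] [Algebra L Ω] [IsScalarTower k L Ω]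
      (T : Fibration k K L Ω) (g : ℕ) (hg : IsGenus k K g) (E : Place k K →₀ ℤ)
      (h4 : ∀ P : Place k K, T.a ≠ 0 → 0 ≤ ord P.ring T.a + 4 * E P)
      (h6 : ∀ P : Place k K, T.b ≠ 0 → 0 ≤ ord P.ring T.b + 6 * E P)
      (hmin : ∀ P : Place k K, (T.a ≠ 0 ∧ ord P.ring T.a + 4 * E P < 4) ∨
        (T.b ≠ 0 ∧ ord P.ring T.b + 6 * E P < 6))
      (κ : K →ₐ[k] F) (f : F →ₐ[k] Ω) (hκ : f.comp κ = T.j)
      (hf : ∀ z : Ω, z ∈ Set.range f ↔ ∀ σ ∈ T.G, σ z = z) (p : ℕ)
      (hp : ((¬ ∃ u : K, u ≠ 0 ∧ ∀ P : Place k K, ord P.ring u = E P) ∧ (E.sum fun _ m => m) + g = p + 1) ∨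
        ((∃ u : K, u ≠ 0 ∧ ∀ P : Place k K, ord P.ring u = E P) ∧ p = g)) : Cls k F p
  | ruled (F K : Type u) [Field F] [Algebra k F] [Field K] [Algebra k K] (hK : IsFunctionField k K)
      (κ : K →ₐ[k] F) (x : F) (hx : IntermediateField.adjoin k (Set.range κ ∪ {x}) = ⊤) : Cls k F 0
  | dec (F : Type u) [Field F] [Algebra k F] (G : Type u) [Group G] [Finite G] (ρ : G →* (F ≃ₐ[k] F))
      (m : ℕ) (Γ : Fin m → Subgroup G) (hΓ : Ideal.span (Set.range fun i => eG (Γ i)) = ⊤)
      (p : Fin m → ℕ) (h : ∀ i, Cls k (IntermediateField.fixedField ((Γ i).map ρ)) (p i)) :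
      Cls k F (∑ i, p i)
  | jac (F K Ω M : Type u) [Field F] [Algebra k F] [Field K] [Algebra k K] [Field Ω] [Algebra k Ω] [Algebra K Ω]
      [IsScalarTower k K Ω] [IsAlgClosed Ω] [CharZero Ω] [Algebra.IsAlgebraic K Ω] [Field M] [Algebra k M]
      [Algebra Ω M] [IsScalarTower k Ω M] (hK : IsFunctionField k K) (κ : K →ₐ[k] F) (D : BC κ Ω M) (m : ℕ)
      (E ME : Fin m → Type u) [∀ i, Field (E i)] [∀ i, Algebra k (E i)] [∀ i, Field (ME i)]
      [∀ i, Algebra k (ME i)] [∀ i, Algebra Ω (ME i)] [∀ i, IsScalarTower k Ω (ME i)] (κE : ∀ i, K →ₐ[k] E i)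
      (DE : ∀ i, BC (κE i) Ω (ME i)) (r : Fin m → ℕ) (f : ∀ i, E i →ₐ[k] F) (hf : ∀ i, (f i).comp (κE i) = κ)
      (hf' : ∀ i, (f i : E i →+* F).Finite) (g : ∀ i, Fin (r i) → E i →ₐ[k] F)
      (hg : ∀ i s, (g i s).comp (κE i) = κ) (hg' : ∀ i s, (g i s : E i →+* F).Finite)
      (Φ : ∀ i, ME i →ₐ[Ω] M) (hΦ : ∀ i a, Φ i ((DE i).j a) = D.j (f i a))
      (Ψ : ∀ i, Fin (r i) → ME i →ₐ[Ω] M) (hΨ : ∀ i s a, Ψ i s ((DE i).j a) = D.j (g i s a))
      (c : ∀ i, Fin (r i) → ℤ) (N : ℕ) (hN : 0 < N)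
      (H : ∀ A : Place Ω M →₀ ℤ, (A.sum fun _ n => n) = 0 → ∀ B : ∀ i, Fin (r i) → Place Ω M →₀ ℤ,
        (∀ i s, IsPull D.ff (DE i).ff (Φ i) (A.mapDomain (Place.comap (DE i).ff D.ff (Ψ i s))) (B i s)) →
        (N : ℤ) • A - ∑ i, ∑ s, c i s • B i s ∈ (curve D.ff).Rat)
      (p : Fin m → ℕ) (h : ∀ i, Cls k (E i) (p i)) : Cls k F (∑ i, p i)

theorem Cls.vpj {k F : Type u} [Field k] [IsAlgClosed k] [CharZero k] [Field F] [Algebra k F]
    {p : ℕ} (h : Cls k F p) : VPJ k F p := by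
  induction h with
  | fib F K L Ω T g hg E h4 h6 hmin κ f hκ hf p hp =>
    have hf1 : ∀ σ ∈ T.G, ∀ z, σ (f z) = f z := fun σ hσ z => (hf (f z)).mp ⟨z, rfl⟩ σ hσ
    rcases hp with ⟨hE, hp⟩ | ⟨⟨u, hu, huE⟩, rfl⟩
    · exact vpj_fib T hg E h4 h6 hmin hE κ f hκ hf1 hp
    · exact Pool.Agent.Helper21.TZ.vpj_triv T hg hu (fun P h => by rw [huE P]; exact h4 P h)
        (fun P h => by rw [huE P]; exact h6 P h) κ f hκ hf1 (fun z hz => (hf z).mpr hz)
  | ruled F K hK κ x hx => exact vpj_ruled hK κ x hx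
  | dec F G ρ m Γ hΓ p h ih => exact vpj_dec ρ Γ hΓ p ih
  | jac F K Ω M hK κ D m E ME κE DE r f hf hf' g hg hg' Φ hΦ Ψ hΨ c N hN H p h ih =>
    exact vpj_jac (Pool.Agent.Helper79.JC.harm_gen Pool.Agent.Helper35.JC.gen) hK D E ME κE DE r f hf hf' g hg hg' Φ hΦ Ψ hΨ c hN H p ih

theorem main {k F : Type u} [Field k] [IsAlgClosed k] [CharZero k] [Field F] [Algebra k F]
    {p : ℕ} (h : Cls k F p) {M : ℕ} (ξ : Fin M → F) (hξ : ξ ≠ 0) {n : ℕ} (hn : p < n)
    (a : Fin n → (proj k (van k ξ)).Cycles) (ha0 : ∀ l, (a l).sum (fun _ c => c) = 0)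
    (haJ : ∀ (K : Type u) [Field K] [Algebra k K] (hK : IsFunctionField k K) (j : K →ₐ[k] F),
      ¬ IsGenus k K 0 → ∃ π : PPt k k (van k ξ) → Place k K, IsMor j ξ π ∧
        ∀ l, (a l).mapDomain π ∈ (curve hK).Rat) :
    ∃ m : ℕ, 0 < m ∧ m • ∑ σ : Equiv.Perm (Fin n), ((Equiv.Perm.sign σ : ℤˣ) : ℤ) •
      extProd (fun i => a (σ i)) ∈ ((proj k (van k ξ)).pow n).Rat :=
  vpj_apply h.vpj ξ hξ hn a ha0 haJ

end Pool.Agent.Helper15.JC
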